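import Pool.Agent.H5.BHG.Stmts5

/-!
# Board `bh3`, row LG3: completeness of `lg`
-/

set_option autoImplicit false

namespace Pool.BHG

open Pool.PG Pool.DPG

theorem lg3_thm (hSB3 : SB3Stmt) : LG3Stmt := by
  obtain ⟨hF1, hF2, hF3, -⟩ := fsb_thm
  obtain ⟨hS, hO, hC⟩ := hSB3
  intro c g Y i hg hY hsm
  have hrange : ∀ X : List Bool, fs g X ⊆ Finset.range g.length := fun X =>
    Finset.filter_subset _ _
  refine lvg_all (sb c) c3 (sb c) g (fun F => F ⊆ fs g Y) hg (hS c g) (hS c g)
    (fun F F' h1 h2 => Finset.Subset.trans h1 h2) ?_ (g.length + 1) _ hY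
    (Finset.Subset.refl _) ?_
  · intro X B' j hX hXY hfd hSub hB hne hdm hcl
    have hXY' : fs g X ⊆ fs g Y := hXY
    by_cases hj : j = i
    · by_cases hex : ∃ w ∈ fs g X, w ∉ fs g B' ∧ own g w = j
      · exfalso
        obtain ⟨w, hwX, hwB, hwj⟩ := hex
        have hwn : w < g.length := Finset.mem_range.1 (hrange X hwX)
        let T : List Bool := msk g.length fun u => !decide (u = w) && !decide (u ∈ suc g w)
        have hTm : (j, T) ∈ c3 g := by
          unfold c3 c4
          rw [List.mem_append, List.mem_map]
          exact Or.inr ⟨w, List.mem_range.2 hwn, by rw [hwj]⟩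
        have hTf : ∀ u, u ∈ fs g T ↔ u < g.length ∧ u ≠ w ∧ u ∉ suc g w := by
          intro u
          show u ∈ fs g (msk g.length fun u => !decide (u = w) && !decide (u ∈ suc g w)) ↔ _
          rw [(hF1 g _).2, Finset.mem_filter, Finset.mem_range]
          simp
        have hBT : fs g B' ⊆ fs g T := by
          intro b hb
          rw [hTf]
          refine ⟨Finset.mem_range.1 (hrange B' hb), fun h => hwB (h ▸ hb), fun h => ?_⟩
          exact hcl w hwX hwB hwj b (hB hb) h hb
        obtain ⟨y1, y2, y3, -⟩ := ysb_thm g X (j, T) hX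
        refine cdc_all (sb c) c3 g X (j, T) (fs g B') (hS c g) hX hTm ?_ hne hdm hBT hfd
        refine hC c g (yy g X (j, T)) hg y1 ?_
        refine le_trans (Nat.pow_le_pow_right (by norm_num) (Finset.card_le_card ?_))
          (hsm w (hXY' hwX) (hwj.trans hj))
        intro u hu
        rw [Finset.mem_filter]
        exact ⟨hXY' (y2 hu), ((hTf u).1 (y3 hu)).2.2⟩
      · push Not at hex
        refine hO c g (dif g X B') (!j) hg hSub.1 ?_
        intro v hv
        rw [hF2, Finset.mem_sdiff] at hv
        have h := hex v hv.1 hv.2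
        revert h
        cases own g v <;> cases j <;> simp
    · by_cases hex : ∃ w ∈ fs g B', own g w = i
      · obtain ⟨w, hwB, hwi⟩ := hex
        refine hC c g (dif g X B') hg hSub ?_
        refine le_trans (Nat.pow_le_pow_right (by norm_num) (Finset.card_le_card ?_))
          (hsm w (hXY' (hB hwB)) hwi)
        intro u hu
        rw [hF2, Finset.mem_sdiff] at hu
        rw [Finset.mem_filter]
        refine ⟨hXY' hu.1, fun h => hu.2 (hdm.2.1 w hwB ?_ u hu.1 h)⟩
        rw [hwi]
        exact fun h => hj h.symm
      · exfalso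
        push Not at hex
        have hvm : ∀ u, u ∈ fs g (vm g j) ↔ u < g.length ∧ own g u = j := by
          intro u
          unfold vm
          rw [(hF1 g _).2, Finset.mem_filter, Finset.mem_range]
          simp
        have hTm : (j, vm g j) ∈ c3 g := by
          unfold c3 c0
          rw [List.mem_append]
          left
          cases j <;> simp
        have hBT : fs g B' ⊆ fs g (vm g j) := by
          intro b hb
          rw [hvm]
          refine ⟨Finset.mem_range.1 (hrange B' hb), ?_⟩
          have h := hex b hb
          revert h hj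
          cases own g b <;> cases j <;> cases i <;> simp
        obtain ⟨y1, y2, y3, -⟩ := ysb_thm g X (j, vm g j) hX
        refine cdc_all (sb c) c3 g X (j, vm g j) (fs g B') (hS c g) hX hTm ?_ hne hdm hBT hfd
        refine hO c g (yy g X (j, vm g j)) j hg y1.1 ?_
        intro v hv
        exact ((hvm v).1 (y3 hv)).2
  · rw [(hF3 g _ hY.1).1]
    refine Nat.lt_succ_of_le ?_
    have := Finset.card_le_card (hrange Y)
    rwa [Finset.card_range] at this

end Pool.BHG
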